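import Pool.Agent.KLA.Main1

/-!
# Finite cycles of the permutation with few descending runs
-/

namespace Pool.Agent.Results.MP_c8efdc_nt.FewRuns

/-- The permutation: `f (3n) = 2n`, `f (3n - 1) = 4n - 1`, `f (3n - 2) = 4n - 3`. -/
def f (x : ℕ) : ℕ :=
  if x % 3 = 0 then 2 * (x / 3) else if x % 3 = 1 then 4 * (x / 3) + 1 else 4 * (x / 3) + 3

/-- The number of descending runs of the orbit of `x`: the number of elements `z` of
`{f^[k] x : k ≥ 0}` with `3 ∣ z` (so `f z < z`) and `¬ 3 ∣ f z` (so the next step ascends). -/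
noncomputable def runs (x : ℕ) : ℕ := {z : ℕ | (∃ k, f^[k] x = z) ∧ 3 ∣ z ∧ ¬ 3 ∣ f z}.ncard

/-- Let `c < 1 / log (log 3 / log 2) = 2.171...` and let `C` be real. Only finitely many positive
integers `x` lie on a finite cycle of `f` whose number of descending runs is at most
`C + c log (length of the cycle)`. -/
theorem result (c C : ℝ) (hc : c < 1 / Real.log (Real.log 3 / Real.log 2)) :
    {x : ℕ | 0 < x ∧ x ∈ Function.periodicPts f ∧
      (runs x : ℝ) ≤ C + c * Real.log (Function.minimalPeriod f x)}.Finite := by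
  refine Pool.Agent.KLA.few_runs_finite c C ?_
  rwa [lt_div_iff₀] at hc
  apply Real.log_pos
  rw [one_lt_div (Real.log_pos (by norm_num))]
  exact Real.log_lt_log (by norm_num) (by norm_num)

end Pool.Agent.Results.MP_c8efdc_nt.FewRuns
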