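import Pool.Agent.KLR62.Core

/-!
# Finite cycles of Collatz's original permutation are rare
-/

open Finset Pool.Agent.KLA Pool.Agent.KLR62

namespace Pool.Agent.Results.MP_c8efdc_nt.FiniteCyclesRare

/-- The permutation: `f (3n) = 2n`, `f (3n - 1) = 4n - 1`, `f (3n - 2) = 4n - 3`. -/
def f (x : ℕ) : ℕ :=
  if x % 3 = 0 then 2 * (x / 3) else if x % 3 = 1 then 4 * (x / 3) + 1 else 4 * (x / 3) + 3

open Classical in
theorem bound {s η : ℝ} (hs : 0 < s) (hs1 : s < 1) (hη : lam s ≤ 3 ^ (-η)) :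
    ∃ C : ℝ, 0 < C ∧ ∀ x : ℕ, 1 ≤ x → ∀ t : ℝ, 0 ≤ t →
    (((Icc 1 x).filter (fun n => ∀ j, 3 ^ j ≤ x → (klam^[j] n : ℝ) ≤ (x : ℝ) ^ (1 + t))).card : ℝ) ≤
      22 * (x : ℝ) ^ (0.6 : ℝ) + C * (x : ℝ) ^ (1 - η + t * s) := by
  obtain ⟨C, hC, h⟩ := core hs hs1
  refine ⟨C * 3 ^ s, by positivity, ?_⟩
  intro x hx t ht
  have hx1 : (1 : ℝ) ≤ x := by exact_mod_cast hx
  have hx0 : (0 : ℝ) < x := by linarith
  refine (h x hx _ (Real.rpow_pos_of_pos hx0 _)).trans ?_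
  set L := Nat.log 3 x with hL
  have hl := lam_pos s
  have hLx : (3 : ℝ) ^ L ≤ x := by exact_mod_cast Nat.pow_log_le_self 3 (show x ≠ 0 by omega)
  have hxL : (x : ℝ) ≤ 3 ^ L * 3 := by
    have := (Nat.lt_pow_succ_log_self (b := 3) (by norm_num) x).le
    rw [pow_succ] at this
    exact_mod_cast this
  apply add_le_add
  · have h1 : (L : ℝ) + 1 ≤ 11 * (x : ℝ) ^ (0.1 : ℝ) := by
      have h2 : (L : ℝ) * Real.log 3 ≤ Real.log x := by
        rw [← Real.log_pow]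
        exact Real.log_le_log (by positivity) hLx
      have h3 : (1 : ℝ) ≤ Real.log 3 := by
        rw [Real.le_log_iff_exp_le (by norm_num)]
        exact (Real.exp_one_lt_d9.trans (by norm_num)).le
      have h4 := Real.log_le_rpow_div hx0.le (show (0 : ℝ) < 0.1 by norm_num)
      have h5 : (1 : ℝ) ≤ (x : ℝ) ^ (0.1 : ℝ) := Real.one_le_rpow hx1 (by norm_num)
      have h6 : (0 : ℝ) ≤ L := Nat.cast_nonneg L
      have h7 : (x : ℝ) ^ (0.1 : ℝ) / 0.1 = 10 * (x : ℝ) ^ (0.1 : ℝ) := by ring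
      nlinarith
    have h2 : (Nat.sqrt x : ℝ) + 1 ≤ 2 * (x : ℝ) ^ (0.5 : ℝ) := by
      have h3 : (Nat.sqrt x : ℝ) ≤ (x : ℝ) ^ (0.5 : ℝ) := by
        rw [show (0.5 : ℝ) = 1 / 2 by norm_num, ← Real.sqrt_eq_rpow]
        exact Real.nat_sqrt_le_real_sqrt
      have h5 : (1 : ℝ) ≤ (x : ℝ) ^ (0.5 : ℝ) := Real.one_le_rpow hx1 (by norm_num)
      linarith
    calc ((L : ℝ) + 1) * ((Nat.sqrt x : ℝ) + 1)
        ≤ (11 * (x : ℝ) ^ (0.1 : ℝ)) * (2 * (x : ℝ) ^ (0.5 : ℝ)) :=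
          mul_le_mul h1 h2 (by positivity) (by positivity)
      _ = 22 * ((x : ℝ) ^ (0.1 : ℝ) * (x : ℝ) ^ (0.5 : ℝ)) := by ring
      _ = 22 * (x : ℝ) ^ (0.6 : ℝ) := by rw [← Real.rpow_add hx0]; norm_num
  · have hη1 : η < 1 := by
      have h1 := one_lt_q hs1
      have h2 : (1 : ℝ) ≤ 3 ^ s := Real.one_le_rpow (by norm_num) hs.le
      rw [lt_div_iff₀ (by positivity), one_mul] at h1
      have h3 : (3 : ℝ) ^ (-1 : ℝ) < 3 ^ (-η) := by rw [Real.rpow_neg_one]; linarith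
      have := (Real.rpow_lt_rpow_left_iff (by norm_num)).mp h3
      linarith
    have h1 : ((x : ℝ) ^ (1 + t) / 3 ^ L) ^ s ≤ 3 ^ s * (x : ℝ) ^ (t * s) := by
      rw [Real.rpow_mul hx0.le, ← Real.mul_rpow (by norm_num) (by positivity)]
      apply Real.rpow_le_rpow (by positivity) _ hs.le
      rw [div_le_iff₀ (by positivity), Real.rpow_add hx0, Real.rpow_one]
      have : 0 < (x : ℝ) ^ t := by positivity
      nlinarith
    have h2 : (3 * lam s) ^ L ≤ (x : ℝ) ^ (1 - η) := by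
      calc (3 * lam s) ^ L ≤ (3 * 3 ^ (-η)) ^ L := by gcongr
        _ = ((3 : ℝ) ^ (1 - η)) ^ L := by
            rw [sub_eq_add_neg, Real.rpow_add (by norm_num), Real.rpow_one]
        _ = ((3 : ℝ) ^ L) ^ (1 - η) := by
            rw [← Real.rpow_natCast, ← Real.rpow_mul (by norm_num), mul_comm,
              Real.rpow_mul (by norm_num), Real.rpow_natCast]
        _ ≤ (x : ℝ) ^ (1 - η) := Real.rpow_le_rpow (by positivity) hLx (by linarith)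
    calc C * (((x : ℝ) ^ (1 + t) / 3 ^ L) ^ s * (3 * lam s) ^ L)
        ≤ C * ((3 ^ s * (x : ℝ) ^ (t * s)) * (x : ℝ) ^ (1 - η)) := by gcongr
      _ = C * 3 ^ s * ((x : ℝ) ^ (1 - η) * (x : ℝ) ^ (t * s)) := by ring
      _ = C * 3 ^ s * (x : ℝ) ^ (1 - η + t * s) := by rw [← Real.rpow_add hx0]

theorem lam_half : lam (1 / 2) ≤ 3 ^ (-0.013 : ℝ) := by
  have h1 : lam (1 / 2) ≤ 0.9857 := by
    unfold lam
    rw [Real.rpow_neg (by norm_num), Real.rpow_neg (by norm_num),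
      ← Real.inv_rpow (by norm_num), ← Real.inv_rpow (by norm_num),
      ← Real.sqrt_eq_rpow, ← Real.sqrt_eq_rpow]
    have h2 : Real.sqrt ((2 / 3 : ℝ)⁻¹) ≤ 1.2248 := Real.sqrt_le_iff.mpr ⟨by norm_num, by norm_num⟩
    have h3 : Real.sqrt ((4 / 3 : ℝ)⁻¹) ≤ 0.8661 := Real.sqrt_le_iff.mpr ⟨by norm_num, by norm_num⟩
    linarith
  refine h1.trans ?_
  rw [← pow_le_pow_iff_left₀ (by norm_num) (by positivity) (show 1000 ≠ 0 by norm_num),
    ← Real.rpow_natCast (3 ^ (-0.013 : ℝ) : ℝ), ← Real.rpow_mul (by norm_num),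
    show (-0.013 : ℝ) * (1000 : ℕ) = -(13 : ℕ) by norm_num, Real.rpow_neg (by norm_num),
    Real.rpow_natCast, show 1000 = 10 * 10 * 10 by norm_num, pow_mul, pow_mul]
  have p1 : (0.9857 : ℝ) ^ 10 ≤ 0.8659 := by norm_num
  calc (((0.9857 : ℝ) ^ 10) ^ 10) ^ 10 ≤ ((0.8659 : ℝ) ^ 10) ^ 10 := by gcongr
    _ ≤ (0.237 : ℝ) ^ 10 := by
      gcongr
      norm_num
    _ ≤ _ := by norm_num

theorem lam_eq (s : ℝ) : lam s = ((3 / 2 : ℝ) ^ s + 2 * (3 / 4 : ℝ) ^ s) / 3 := by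
  unfold lam
  rw [Real.rpow_neg (by norm_num), Real.rpow_neg (by norm_num),
    ← Real.inv_rpow (by norm_num), ← Real.inv_rpow (by norm_num), inv_div, inv_div]

theorem one_le_lam {s : ℝ} (hs : 1 ≤ s) : 1 ≤ lam s := by
  have h1 := one_add_mul_self_le_rpow_one_add (s := (1 / 2 : ℝ)) (by norm_num) hs
  have h2 := one_add_mul_self_le_rpow_one_add (s := (-1 / 4 : ℝ)) (by norm_num) hs
  rw [lam_eq, show (3 / 2 : ℝ) = 1 + 1 / 2 by norm_num, show (3 / 4 : ℝ) = 1 + -1 / 4 by norm_num]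
  linarith

theorem logb_lam_ge {s : ℝ} (hs : 0 < s) (hs1 : s < 1) : (-0.4 : ℝ) ≤ Real.logb 3 (lam s) := by
  rw [Real.le_logb_iff_rpow_le (by norm_num) (lam_pos s)]
  have h1 : (3 : ℝ) ^ (-0.4 : ℝ) ≤ 5 / 6 := by
    rw [← pow_le_pow_iff_left₀ (by positivity) (by norm_num) (show 5 ≠ 0 by norm_num),
      ← Real.rpow_natCast (3 ^ (-0.4 : ℝ) : ℝ), ← Real.rpow_mul (by norm_num),
      show (-0.4 : ℝ) * (5 : ℕ) = -(2 : ℕ) by norm_num, Real.rpow_neg (by norm_num),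
      Real.rpow_natCast]
    norm_num
  have h2 : (1 : ℝ) ≤ (3 / 2 : ℝ) ^ s := Real.one_le_rpow (by norm_num) hs.le
  have h3 : (3 / 4 : ℝ) ^ (1 : ℝ) ≤ (3 / 4 : ℝ) ^ s :=
    Real.rpow_le_rpow_of_exponent_ge (by norm_num) (by norm_num) hs1.le
  rw [Real.rpow_one] at h3
  rw [lam_eq]
  linarith

open Classical in
theorem to_ncard (x : ℕ) (P : ℕ → Prop) :
    {n : ℕ | 1 ≤ n ∧ n ≤ x ∧ P n}.ncard = ((Icc 1 x).filter P).card := by
  rw [← Set.ncard_coe_finset]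
  congr 1
  ext n
  simp [and_assoc]

/-- (1) Let `0 < s < 1` and `λ = ((3 / 2) ^ s + 2 (3 / 4) ^ s) / 3`. At most
`C x ^ (1 + log λ / log 3 + s t)` positive integers `n ≤ x` have a path `n, f n, f² n, ..., f^j n`
(`j ≤ log x / log 3`) below `x ^ (1 + t)`, for all `x` and all `t ≥ 0`.
(2) For each `δ < log (32 / 27) / (3 log 3)` there is `η > 0` such that at most `C x ^ (1 - η)` have
one below `x ^ (1 + δ)`.
(3) At most `C x ^ 0.987` positive integers lie on finite cycles contained in `[1, x]`. -/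
theorem result :
    (∀ s : ℝ, 0 < s → s < 1 → ∃ C : ℝ, ∀ x : ℕ, 1 ≤ x → ∀ t : ℝ, 0 ≤ t →
      ({n : ℕ | 1 ≤ n ∧ n ≤ x ∧ ∀ j, 3 ^ j ≤ x → (f^[j] n : ℝ) ≤ (x : ℝ) ^ (1 + t)}.ncard : ℝ) ≤
        C * (x : ℝ) ^ (1 + Real.logb 3 (((3 / 2) ^ s + 2 * (3 / 4) ^ s) / 3) + s * t)) ∧
    (∀ δ : ℝ, δ < Real.log (32 / 27) / (3 * Real.log 3) → ∃ η : ℝ, 0 < η ∧ ∃ C : ℝ,
      ∀ x : ℕ, 1 ≤ x →
      ({n : ℕ | 1 ≤ n ∧ n ≤ x ∧ ∀ j, 3 ^ j ≤ x → (f^[j] n : ℝ) ≤ (x : ℝ) ^ (1 + δ)}.ncard : ℝ) ≤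
        C * (x : ℝ) ^ (1 - η)) ∧
    (∃ C : ℝ, ∀ x : ℕ, 1 ≤ x →
      ({n : ℕ | 1 ≤ n ∧ n ≤ x ∧ ∃ k, 0 < k ∧ f^[k] n = n ∧ ∀ j, f^[j] n ≤ x}.ncard : ℝ) ≤
        C * (x : ℝ) ^ (0.987 : ℝ)) := by
  classical
  have hf : f = klam := rfl
  rw [hf]
  have H1 : ∀ s : ℝ, 0 < s → s < 1 → ∃ C : ℝ, ∀ x : ℕ, 1 ≤ x → ∀ t : ℝ, 0 ≤ t →
      ({n : ℕ | 1 ≤ n ∧ n ≤ x ∧ ∀ j, 3 ^ j ≤ x →
        (klam^[j] n : ℝ) ≤ (x : ℝ) ^ (1 + t)}.ncard : ℝ) ≤
        C * (x : ℝ) ^ (1 + Real.logb 3 (lam s) + s * t) := by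
    intro s hs hs1
    obtain ⟨C, hC, h⟩ := bound (η := -Real.logb 3 (lam s)) hs hs1 (by
      rw [neg_neg, Real.rpow_logb (by norm_num) (by norm_num) (lam_pos s)])
    refine ⟨22 + C, fun x hx t ht => ?_⟩
    have hx1 : (1 : ℝ) ≤ x := by exact_mod_cast hx
    rw [to_ncard]
    refine (h x hx t ht).trans ?_
    have h1 : (x : ℝ) ^ (0.6 : ℝ) ≤ (x : ℝ) ^ (1 + Real.logb 3 (lam s) + s * t) := by
      apply Real.rpow_le_rpow_of_exponent_le hx1
      have := logb_lam_ge hs hs1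
      have := mul_nonneg hs.le ht
      linarith
    have h2 : 1 - -Real.logb 3 (lam s) + t * s = 1 + Real.logb 3 (lam s) + s * t := by ring
    rw [h2]
    linarith
  refine ⟨fun s hs hs1 => by simpa only [lam_eq] using H1 s hs hs1, ?_, ?_⟩
  · intro δ hδ
    have hl3 : 0 < Real.log 3 := Real.log_pos (by norm_num)
    have hl32 : 0 < Real.log (32 / 27) := Real.log_pos (by norm_num)
    set e := max δ 0 with he
    have he0 : 0 ≤ e := le_max_right _ _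
    have he1 : e * Real.log 3 < Real.log (32 / 27) / 3 := by
      rw [he]
      rcases max_cases δ 0 with ⟨h, _⟩ | ⟨h, _⟩
      · rw [h]
        rw [lt_div_iff₀ (by positivity)] at hδ
        linarith
      · rw [h]; linarith
    obtain ⟨s, hs, hs2⟩ := exists_s he1
    have hl := lam_pos s
    have hs1 : s < 1 := by
      by_contra hc
      push Not at hc
      have h1 := one_le_lam hc
      have h2 : 1 ≤ Real.exp (e * Real.log 3 * s) := Real.one_le_exp (by positivity)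
      nlinarith
    set ρ := Real.exp (e * Real.log 3 * s) * lam s with hρ
    have hρ0 : 0 < ρ := by positivity
    set η := -Real.log ρ / Real.log 3 with hη
    have hη0 : 0 < η := div_pos (neg_pos.mpr (Real.log_neg hρ0 hs2)) hl3
    have hlam : lam s ≤ 3 ^ (-(η + e * s)) := by
      rw [Real.rpow_def_of_pos (by norm_num)]
      have h1 : Real.log 3 * -(η + e * s) = Real.log ρ - e * Real.log 3 * s := by
        rw [hη]; field_simp; ring
      rw [h1, Real.exp_sub, Real.exp_log hρ0, hρ]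
      rw [mul_div_assoc, mul_comm, div_mul_cancel₀ _ (Real.exp_pos _).ne']
    obtain ⟨C, hC, h⟩ := bound hs hs1 hlam
    refine ⟨min η 0.4, lt_min hη0 (by norm_num), 22 + C, fun x hx => ?_⟩
    have hx1 : (1 : ℝ) ≤ x := by exact_mod_cast hx
    rw [to_ncard]
    have hsub : (Icc 1 x).filter (fun n => ∀ j, 3 ^ j ≤ x → (klam^[j] n : ℝ) ≤ (x : ℝ) ^ (1 + δ)) ⊆
        (Icc 1 x).filter (fun n => ∀ j, 3 ^ j ≤ x → (klam^[j] n : ℝ) ≤ (x : ℝ) ^ (1 + e)) := by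
      intro n hn
      rw [Finset.mem_filter] at hn ⊢
      refine ⟨hn.1, fun j hj => (hn.2 j hj).trans ?_⟩
      exact Real.rpow_le_rpow_of_exponent_le hx1 (by linarith [le_max_left δ 0])
    have hcard : (((Icc 1 x).filter
        (fun n => ∀ j, 3 ^ j ≤ x → (klam^[j] n : ℝ) ≤ (x : ℝ) ^ (1 + δ))).card : ℝ) ≤
        (((Icc 1 x).filter
        (fun n => ∀ j, 3 ^ j ≤ x → (klam^[j] n : ℝ) ≤ (x : ℝ) ^ (1 + e))).card : ℝ) := by
      exact_mod_cast Finset.card_le_card hsub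
    refine hcard.trans ((h x hx e he0).trans ?_)
    have h1 : (x : ℝ) ^ (0.6 : ℝ) ≤ (x : ℝ) ^ (1 - min η 0.4) :=
      Real.rpow_le_rpow_of_exponent_le hx1 (by linarith [min_le_right η 0.4])
    have h2 : (x : ℝ) ^ (1 - (η + e * s) + e * s) ≤ (x : ℝ) ^ (1 - min η 0.4) :=
      Real.rpow_le_rpow_of_exponent_le hx1 (by linarith [min_le_left η 0.4])
    nlinarith
  · obtain ⟨C, h⟩ := H1 (1 / 2) (by norm_num) (by norm_num)
    refine ⟨C, fun x hx => ?_⟩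
    have hx1 : (1 : ℝ) ≤ x := by exact_mod_cast hx
    have h0 := h x hx 0 le_rfl
    rw [mul_zero, add_zero, add_zero, Real.rpow_one] at h0
    have hC : 0 ≤ C := by
      have h1 := (Nat.cast_nonneg _).trans h0
      have h2 : 0 < (x : ℝ) ^ (1 + Real.logb 3 (lam (1 / 2))) := by positivity
      exact nonneg_of_mul_nonneg_left h1 h2
    have hlb : Real.logb 3 (lam (1 / 2)) ≤ -0.013 := by
      rw [Real.logb_le_iff_le_rpow (by norm_num) (lam_pos _)]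
      exact lam_half
    have h3 : (x : ℝ) ^ (1 + Real.logb 3 (lam (1 / 2))) ≤ (x : ℝ) ^ (0.987 : ℝ) :=
      Real.rpow_le_rpow_of_exponent_le hx1 (by linarith)
    refine le_trans ?_ (h0.trans (mul_le_mul_of_nonneg_left h3 hC))
    rw [to_ncard, to_ncard]
    have hsub : (Icc 1 x).filter (fun n => ∃ k, 0 < k ∧ klam^[k] n = n ∧ ∀ j, klam^[j] n ≤ x) ⊆
        (Icc 1 x).filter (fun n => ∀ j, 3 ^ j ≤ x → (klam^[j] n : ℝ) ≤ (x : ℝ)) := by
      intro n hn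
      rw [Finset.mem_filter] at hn ⊢
      obtain ⟨h1, k, _, _, h2⟩ := hn
      exact ⟨h1, fun j _ => by exact_mod_cast h2 j⟩
    exact_mod_cast Finset.card_le_card hsub

end Pool.Agent.Results.MP_c8efdc_nt.FiniteCyclesRare
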