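import Pool.Agent.KLA.Pieces3

/-!
# Many pieces of the permutation below `x ^ (1 + δ)`
-/

namespace Pool.Agent.Results.MP_c8efdc_nt.ManyPieces

/-- The permutation: `f (3n) = 2n`, `f (3n - 1) = 4n - 1`, `f (3n - 2) = 4n - 3`. -/
def f (x : ℕ) : ℕ :=
  if x % 3 = 0 then 2 * (x / 3) else if x % 3 = 1 then 4 * (x / 3) + 1 else 4 * (x / 3) + 3

/-- Let `δ < log (32 / 27) / (3 log 3) = 0.0515...`. There is `c > 0` such that for all large `x`
there is a set `S` of at least `c x` positive integers `≤ x` such that the path `a, f a, f² a, ...`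
from any `a` in `S` to any `b` in `S` (`b = a` allowed) passes through an element larger than
`x ^ (1 + δ)`. -/
theorem result (δ : ℝ) (hδ : δ < Real.log (32 / 27) / (3 * Real.log 3)) :
    ∃ c : ℝ, 0 < c ∧ ∃ X₀ : ℕ, ∀ x : ℕ, X₀ ≤ x → ∃ S : Finset ℕ, S ⊆ Finset.Icc 1 x ∧
      c * x ≤ S.card ∧ ∀ a ∈ S, ∀ b ∈ S, ∀ k, 0 < k → f^[k] a = b →
        ∃ j < k, (x : ℝ) ^ (1 + δ) < f^[j] a :=
  Pool.Agent.KLA.pieces hδ

end Pool.Agent.Results.MP_c8efdc_nt.ManyPieces
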