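import Pool.Agent.KLA.Main2
import Pool.Agent.KLA.Orbit

/-!
# Classification of the finite cycles with at most 16 descending runs
-/

namespace Pool.Agent.Results.MP_c8efdc_nt.SixteenRuns

/-- The permutation: `f (3n) = 2n`, `f (3n - 1) = 4n - 1`, `f (3n - 2) = 4n - 3`. -/
def f (x : ℕ) : ℕ :=
  if x % 3 = 0 then 2 * (x / 3) else if x % 3 = 1 then 4 * (x / 3) + 1 else 4 * (x / 3) + 3

/-- The number of descending runs of the orbit of `x`: the number of elements `z` of
`{f^[k] x : k ≥ 0}` with `3 ∣ z` (so `f z < z`) and `¬ 3 ∣ f z` (so the next step ascends). -/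
noncomputable def runs (x : ℕ) : ℕ := {z : ℕ | (∃ k, f^[k] x = z) ∧ 3 ∣ z ∧ ¬ 3 ∣ f z}.ncard

/-- The finite cycles of `f` on the positive integers with at most 16 descending runs are the four
known finite cycles. -/
theorem result (x : ℕ) :
    (0 < x ∧ x ∈ Function.periodicPts f ∧ runs x ≤ 16) ↔
      x ∈ ({1, 2, 3, 4, 5, 7, 9, 6, 44, 59, 79, 105, 70, 93, 62, 83, 111, 74, 99, 66} : Set ℕ) := by
  exact Pool.Agent.KLA.class16 x

end Pool.Agent.Results.MP_c8efdc_nt.SixteenRuns
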